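import Pool.Agent.Y140.AW.Stm2
import Pool.Agent.Y562.AW.Core

/-!
# Project AW, second part (MP_5de024_nt): specialisation of the points, `s` to zero

Adapted from `Pool/Agent/Y562/AW/Core.lean` and `Place.lean` (helper562).
-/

set_option autoImplicit false

namespace Pool.Agent.Y195.AW2

open Polynomial Pool.Agent.Y140.AW
open Pool.Agent.Y562.AW (eT eG eT_map eG_map tA_eval tZ_eq GG_eval sub_dvd_aeval sub_dvd_eT)

section

variable {K R k : Type} [Field K] [CommRing R] [IsDomain R] [Algebra K R] [Field k] [Algebra K k]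

/-- Different points have different specialisations. -/
theorem red_inj (p : ℕ) [Fact p.Prime] [CharP R p] (r : R →ₐ[K] k) (Θ : K[X][X]) (D : K[X])
    (B m : ℕ) (ν : Fin m → R)
    (s a b a' b' : R) (h1 : eT Θ a b = 0) (h2 : eT Θ a' b' = 0)
    (h3 : eG D p B ν a = s * (aeval a D * b) ^ p) (h4 : eG D p B ν a' = s * (aeval a' D * b') ^ p)
    (h5 : r a = r a') (h6 : r b = r b') (h7 : eT (derivative Θ) (r a) (r b) ≠ 0)
    (h8 : aeval (r a) D ≠ 0) : a = a' := by
  by_contra hne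
  have hΔ : a - a' ≠ 0 := sub_ne_zero.2 hne
  -- the second coordinates
  obtain ⟨q, hq⟩ := Polynomial.binomExpansion
    (Θ.map (Polynomial.aeval a : K[X] →ₐ[K] R).toRingHom) b' (b - b')
  have e1 : b' + (b - b') = b := by ring
  rw [e1, derivative_map, eval_map, eval_map, eval_map] at hq
  change eT Θ a b = eT Θ a b' + eT (derivative Θ) a b' * (b - b') + q * (b - b') ^ 2 at hq
  obtain ⟨u, hu⟩ : ∃ u, u = eT (derivative Θ) a b' + q * (b - b') := ⟨_, rfl⟩
  have hru : r u ≠ 0 := by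
    rw [hu, map_add, map_mul, map_sub, h6, sub_self, mul_zero, add_zero, eT_map, ← h6]
    exact h7
  have hd : a - a' ∣ u * (b - b') := by
    have h10 := sub_dvd_eT Θ a a' b'
    rw [h2, sub_zero] at h10
    have h11 : u * (b - b') = -eT Θ a b' := by
      rw [h1] at hq
      rw [hu]
      linear_combination -hq
    rw [h11]
    exact (dvd_neg).2 h10
  obtain ⟨w, hw⟩ := hd
  obtain ⟨δ, hδ⟩ := sub_dvd_aeval D a a'
  obtain ⟨t1, ht1⟩ := sub_dvd_aeval (X ^ B * D) a a'
  have h12 : ∀ i : Fin m, ∃ t, aeval a (D * X ^ (i : ℕ)) - aeval a' (D * X ^ (i : ℕ)) =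
      (a - a') * t := fun i => sub_dvd_aeval (D * X ^ (i : ℕ)) a a'
  choose t2 ht2 using h12
  simp only [map_mul, map_pow, aeval_X] at ht1 ht2
  have hp : p.Prime := Fact.out
  have hp1 : p = (p - 1) + 1 := by
    have := hp.one_lt
    omega
  -- the difference of the two equations
  have g1 : eG D p B ν a - eG D p B ν a' = (a - a') * (aeval a D) ^ p +
      (a - a') ^ p * (a' * δ ^ p + t1 ^ p + ∑ i : Fin m, ν i * t2 i ^ p) := by
    have k1 : (aeval a D) ^ p - (aeval a' D) ^ p = (a - a') ^ p * δ ^ p := by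
      rw [← sub_pow_char, hδ, mul_pow]
    have k2 : (a ^ B * aeval a D + 1) ^ p - (a' ^ B * aeval a' D + 1) ^ p =
        (a - a') ^ p * t1 ^ p := by
      rw [← sub_pow_char, add_sub_add_right_eq_sub, ht1, mul_pow]
    have k3 : ∀ i : Fin m, (aeval a D) ^ p * (ν i * a ^ (p * (i : ℕ))) -
        (aeval a' D) ^ p * (ν i * a' ^ (p * (i : ℕ))) = (a - a') ^ p * (ν i * t2 i ^ p) := by
      intro i
      have k4 : (aeval a D * a ^ (i : ℕ)) ^ p - (aeval a' D * a' ^ (i : ℕ)) ^ p =
          (a - a') ^ p * t2 i ^ p := by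
        rw [← sub_pow_char, ht2 i, mul_pow]
      have k5 : a ^ (p * (i : ℕ)) = (a ^ (i : ℕ)) ^ p := by rw [← pow_mul, mul_comm]
      have k6 : a' ^ (p * (i : ℕ)) = (a' ^ (i : ℕ)) ^ p := by rw [← pow_mul, mul_comm]
      rw [mul_pow, mul_pow] at k4
      rw [k5, k6]
      linear_combination ν i * k4
    have k7 : (aeval a D) ^ p * ∑ i : Fin m, ν i * a ^ (p * (i : ℕ)) -
        (aeval a' D) ^ p * ∑ i : Fin m, ν i * a' ^ (p * (i : ℕ)) =
        (a - a') ^ p * ∑ i : Fin m, ν i * t2 i ^ p := by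
      rw [Finset.mul_sum, Finset.mul_sum, Finset.mul_sum, ← Finset.sum_sub_distrib]
      exact Finset.sum_congr rfl fun i _ => k3 i
    unfold eG
    linear_combination a' * k1 + k2 + k7
  have g2 : u ^ p * (s * (aeval a D * b) ^ p - s * (aeval a' D * b') ^ p) =
      (a - a') ^ p * (s * (u * (δ * b) + aeval a' D * w) ^ p) := by
    have k8 : u ^ p * ((aeval a D * b) ^ p - (aeval a' D * b') ^ p) =
        (a - a') ^ p * (u * (δ * b) + aeval a' D * w) ^ p := by
      rw [← sub_pow_char, ← mul_pow, ← mul_pow]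
      congr 1
      linear_combination u * b * hδ + aeval a' D * hw
    linear_combination s * k8
  rw [h3, h4] at g1
  rw [g1] at g2
  -- cancel
  have g3 : u ^ p * ((aeval a D) ^ p + (a - a') ^ (p - 1) *
      (a' * δ ^ p + t1 ^ p + ∑ i : Fin m, ν i * t2 i ^ p)) =
      (a - a') ^ (p - 1) * (s * (u * (δ * b) + aeval a' D * w) ^ p) := by
    apply mul_left_cancel₀ hΔ
    have k9 : (a - a') ^ p = (a - a') * (a - a') ^ (p - 1) := by
      conv_lhs => rw [hp1]
      rw [pow_succ]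
      ring
    rw [k9] at g2
    linear_combination g2
  have g4 := congrArg r g3
  have k10 : (r a - r a') ^ (p - 1) = 0 := by
    rw [h5, sub_self]
    apply zero_pow
    have := hp.one_lt
    omega
  rw [map_mul, map_add, map_mul, map_mul, map_pow r (a - a'), map_sub, k10, zero_mul, zero_mul,
    add_zero, map_pow, map_pow, ← Polynomial.aeval_algHom_apply] at g4
  rcases mul_eq_zero.1 g4 with g5 | g5
  · exact hru (pow_eq_zero_iff hp.ne_zero |>.1 g5)
  · exact h8 (pow_eq_zero_iff hp.ne_zero |>.1 g5)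

end

/-- the derivative does not vanish at the points over a point where `D` does not vanish -/
theorem tZ_ne (h : St_res) {K k₀ : Type} [Field K] [Field k₀] [IsAlgClosed k₀] [Algebra K k₀]
    {Θ : K[X][X]} {D₀ D₁ D : K[X]} {d : ℕ} (hDD : DD Θ D₀ d) (hD : D = (D₀ * D₁) ^ 4) {a b : k₀}
    (ha : aeval a D ≠ 0) (hb : (tA Θ a).eval b = 0) : tZ Θ a b ≠ 0 := by
  have h0 : aeval a D₀ ≠ 0 := by
    intro h1
    apply ha
    rw [hD, map_pow, map_mul, h1, zero_mul, zero_pow (by norm_num)]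
  obtain ⟨c, -, hc, hprod⟩ := h K k₀ Θ D₀ d hDD a h0
  obtain ⟨i, rfl⟩ := (hc b).1 hb
  rw [← hprod] at h0
  exact Finset.prod_ne_zero_iff.1 h0 i (Finset.mem_univ i)

theorem t_spb (h1 : St_int2) (h2 : St_res) : St_spb := by
  classical
  intro p hp K N k₀ _ _ _ _ _ _ _ _ Θ D₀ D₁ D d B m hDD hBB hD₁ hD ν s hs0 x θ hx hpt A ρ hint hsA
    hνA hρs S hS1 hS2 hS3
  have hp' : Fact p.Prime := hp
  have : CharP A p := charP_of_injective_algebraMap (algebraMap K A).injective p
  let f : A →ₐ[K] N := A.val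
  have hf : Function.Injective f := Subtype.val_injective
  have hpts := fun l => h1 p K N Θ D₀ D₁ D d B m hDD hBB hD₁ hD ν s (x l) (θ l) (hpt l) A hsA hνA
  let X' : Fin (d * (p * (B + D.natDegree))) → A := fun l => ⟨x l, hint _ (hpts l).1⟩
  let T' : Fin (d * (p * (B + D.natDegree))) → A := fun l => ⟨θ l, hint _ (hpts l).2.1⟩
  let s' : A := ⟨s, hsA⟩
  let ν' : Fin m → A := fun i => ⟨ν i, hνA i⟩
  have e1 : ∀ l, eT Θ (X' l) (T' l) = 0 := by
    intro l
    apply hf
    rw [eT_map, map_zero]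
    have := (hpt l).1
    rw [tA_eval] at this
    exact this
  have e2 : ∀ l, eG D p B ν' (X' l) = s' * (aeval (X' l) D * T' l) ^ p := by
    intro l
    apply hf
    rw [eG_map, map_mul, map_pow, map_mul, ← Polynomial.aeval_algHom_apply]
    have := (hpt l).2.2
    rw [GG_eval] at this
    exact this
  have hmem : ∀ l, (ρ (X' l), ρ (T' l)) ∈ S := by
    intro l
    refine (hS1 _).2 ⟨?_, ?_⟩
    · show (GG D p B (fun i => ρ (ν' i))).eval (ρ (X' l)) = 0
      rw [GG_eval, ← eG_map, e2, map_mul, hρs, zero_mul]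
    · show (tA Θ (ρ (X' l))).eval (ρ (T' l)) = 0
      rw [tA_eval, ← eT_map, e1, map_zero]
  have htZ : ∀ z ∈ S, tZ Θ z.1 z.2 ≠ 0 := by
    intro z hz
    exact tZ_ne h2 hDD hD (hS2 z hz) ((hS1 z).1 hz).2
  have hinj : Function.Injective (fun l => (ρ (X' l), ρ (T' l))) := by
    intro l l' hll
    have h6 : ρ (X' l) = ρ (X' l') := congrArg Prod.fst hll
    have h7 : ρ (T' l) = ρ (T' l') := congrArg Prod.snd hll
    have h8 := red_inj p ρ Θ D B m ν' s' (X' l) (T' l) (X' l') (T' l') (e1 l) (e1 l') (e2 l)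
      (e2 l') h6 h7 (by
        have := htZ _ (hmem l)
        rw [tZ_eq] at this
        exact this) (hS2 _ (hmem l))
    exact hx (congrArg Subtype.val h8)
  have himg : Finset.univ.image (fun l => (ρ (X' l), ρ (T' l))) = S := by
    apply Finset.eq_of_subset_of_card_le
    · intro z hz
      obtain ⟨l, -, rfl⟩ := Finset.mem_image.1 hz
      exact hmem l
    · rw [hS3, Finset.card_image_of_injective _ hinj, Finset.card_univ, Fintype.card_fin]
  let c' : A := ∏ l, eT (derivative Θ) (X' l) (T' l)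
  have hfc : f c' = ∏ l, tZ Θ (x l) (θ l) := by
    rw [map_prod]
    refine Finset.prod_congr rfl fun l _ => ?_
    rw [eT_map, tZ_eq]
    rfl
  have hrc : ρ c' = ∏ z ∈ S, tZ Θ z.1 z.2 := by
    rw [← himg, Finset.prod_image (fun a _ b _ h => hinj h), map_prod]
    refine Finset.prod_congr rfl fun l _ => ?_
    rw [eT_map, tZ_eq]
  have hc : ∏ l, tZ Θ (x l) (θ l) ∈ A := by
    rw [← hfc]
    exact c'.2
  refine ⟨hc, ?_⟩
  have e3 : (⟨∏ l, tZ Θ (x l) (θ l), hc⟩ : A) = c' := Subtype.ext hfc.symm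
  rw [e3, hrc]

end Pool.Agent.Y195.AW2
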